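import Mathlib

set_option autoImplicit false

/-!
# Circulant Williamson quadruples are symmetric up to a common translate

`MP_f288ff_co`.  Let `G` be a finite abelian group of odd order `w` and `A, B, C, D` `G`-developed
`±1` matrices (circulant for `G = ℤ/w`) forming a Williamson quadruple.  In the group ring put
`T = A² + B² + C² + D²`.  Then `T X* = 4 w X` for each of the four elements, so `T T* = 16 w²`, and
`T` has coefficient sum `4 w` and coefficients divisible by `4`.  If `w` divides `T`, then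
`T = 4 w g` for one `g ∈ G`, and `4 w` being the number of summands `± 1` of that coefficient all
four elements are symmetric about `g`.  The divisibility at `p ∣ w` holds whenever `p` and the four
elements generate the unit ideal; this is automatic if `p ∥ w` and `p` is self-conjugate modulo
`w / p`.
-/


open Finset

namespace Pool.Agent.Results.MP_f288ff_co.CirculantSymmetric

section GroupRing

variable {G : Type*} [AddCommGroup G]

/-- `g ↦ n g` on the group ring `R[G]`. -/
noncomputable def dil (R : Type*) [CommRing R] (n : ℤ) :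
    AddMonoidAlgebra R G →+* AddMonoidAlgebra R G :=
  AddMonoidAlgebra.mapDomainRingHom R (zsmulAddGroupHom n : G →+ G)

@[simp] lemma dil_single (R : Type*) [CommRing R] (n : ℤ) (g : G) (r : R) :
    dil R n (AddMonoidAlgebra.single g r) = AddMonoidAlgebra.single (n • g) r := by
  simp [dil]

lemma dil_dil (R : Type*) [CommRing R] (m n : ℤ) (x : AddMonoidAlgebra R G) :
    dil R m (dil R n x) = dil R (m * n) x := by
  have : (dil R m).comp (dil R n) = (dil R (m * n) : AddMonoidAlgebra R G →+* _) := by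
    apply AddMonoidAlgebra.ringHom_ext <;> intro <;> simp [mul_smul]
  exact congrArg (fun f => f x) this

lemma dil_one (R : Type*) [CommRing R] (x : AddMonoidAlgebra R G) : dil R 1 x = x := by
  have : (dil R 1 : AddMonoidAlgebra R G →+* _) = RingHom.id _ := by
    apply AddMonoidAlgebra.ringHom_ext <;> intro <;> simp
  exact congrArg (fun f => f x) this

lemma dil_congr (R : Type*) [CommRing R] {m n : ℤ} (h : ∀ g : G, m • g = n • g)
    (x : AddMonoidAlgebra R G) : dil R m x = dil R n x := by
  have : (dil R m : AddMonoidAlgebra R G →+* _) = dil R n := by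
    apply AddMonoidAlgebra.ringHom_ext <;> intro <;> simp [h]
  exact congrArg (fun f => f x) this

/-- reduction mod `p` -/
noncomputable def red (p : ℕ) : AddMonoidAlgebra ℤ G →+* AddMonoidAlgebra (ZMod p) G :=
  AddMonoidAlgebra.mapRingHom G (Int.castRingHom (ZMod p))

lemma red_dil (p : ℕ) (n : ℤ) (x : AddMonoidAlgebra ℤ G) :
    red p (dil ℤ n x) = dil (ZMod p) n (red p x) := by
  have : (red p).comp (dil ℤ n) = (dil (ZMod p) n : AddMonoidAlgebra (ZMod p) G →+* _).comp (red p) := by
    apply AddMonoidAlgebra.ringHom_ext <;> intro <;> simp [red]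
  exact congrArg (fun f => f x) this

lemma dvd_of_red_eq_zero {p : ℕ} {x : AddMonoidAlgebra ℤ G} (h : red p x = 0) (g : G) :
    (p : ℤ) ∣ x.coeff g := by
  have := congrArg (fun y => y.coeff g) h
  simp [red] at this
  exact (ZMod.intCast_zmod_eq_zero_iff_dvd _ _).1 this

lemma exists_mul_of_red_eq_zero {p : ℕ} {x : AddMonoidAlgebra ℤ G}
    (h : red p x = 0) : ∃ y, x = (p : AddMonoidAlgebra ℤ G) * y := by
  refine ⟨AddMonoidAlgebra.ofCoeff (x.coeff.mapRange (fun z => z / (p:ℤ)) (by simp)), ?_⟩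
  rw [← nsmul_eq_mul]
  apply AddMonoidAlgebra.ext
  ext g
  have := Int.mul_ediv_cancel' (dvd_of_red_eq_zero h g)
  rw [AddMonoidAlgebra.coeff_smul_apply, AddMonoidAlgebra.coeff_ofCoeff, Finsupp.mapRange_apply,
    nsmul_eq_mul, this]

lemma natCast_mul_cancel {p : ℕ} (hp : p ≠ 0) {x y : AddMonoidAlgebra ℤ G}
    (h : (p : AddMonoidAlgebra ℤ G) * x = (p : AddMonoidAlgebra ℤ G) * y) : x = y := by
  rw [← nsmul_eq_mul, ← nsmul_eq_mul] at h
  apply AddMonoidAlgebra.ext
  ext g
  have h1 : (p • x).coeff g = (p • y).coeff g := by rw [h]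
  rw [AddMonoidAlgebra.coeff_smul_apply, AddMonoidAlgebra.coeff_smul_apply, nsmul_eq_mul,
    nsmul_eq_mul] at h1
  have h2 : (p : ℤ) ≠ 0 := by exact_mod_cast hp
  exact mul_left_cancel₀ h2 h1

instance charP_zmod (p : ℕ) [Fact p.Prime] : CharP (AddMonoidAlgebra (ZMod p) G) p := by
  refine charP_of_injective_algebraMap (R := ZMod p) (A := AddMonoidAlgebra (ZMod p) G) ?_ p
  intro a b h
  have := congrArg (fun y => y.coeff 0) h
  simpa [AddMonoidAlgebra.coe_algebraMap] using this

lemma pow_char_eq (p : ℕ) [Fact p.Prime] (x : AddMonoidAlgebra (ZMod p) G) :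
    x ^ p = dil (ZMod p) p x := by
  have : frobenius (AddMonoidAlgebra (ZMod p) G) p = dil (ZMod p) p := by
    apply AddMonoidAlgebra.ringHom_ext <;> intro r <;> simp [frobenius_def]
  exact congrArg (fun f => f x) this

lemma pow_char_pow_eq (p : ℕ) [Fact p.Prime] (n : ℕ) (x : AddMonoidAlgebra (ZMod p) G) :
    x ^ (p ^ n) = dil (ZMod p) ((p : ℤ) ^ n) x := by
  induction n with
  | zero => simp [dil_one]
  | succ n ih => rw [pow_succ, pow_mul, ih, pow_char_eq, dil_dil, pow_succ, mul_comm]

lemma natCast_isUnit (p n : ℕ) [Fact p.Prime] (h : ¬ p ∣ n) :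
    IsUnit ((n : ℕ) : AddMonoidAlgebra (ZMod p) G) := by
  have h1 : IsUnit ((n : ℕ) : ZMod p) := by
    rw [isUnit_iff_ne_zero]
    intro h0
    exact h ((ZMod.natCast_eq_zero_iff n p).1 h0)
  have := h1.map (algebraMap (ZMod p) (AddMonoidAlgebra (ZMod p) G))
  simpa using this

/-- The key divisibility. -/
lemma red_eq_zero_of_selfconj (p : ℕ) [Fact p.Prime] (m j : ℕ) (hm : ¬ p ∣ 4 * m) (hj : 1 ≤ j)
    (hG : ∀ g : G, ((p : ℤ) ^ j * p) • g = (-1 * (p : ℤ)) • g)
    {ι : Type*} [Fintype ι] [DecidableEq ι] (X : ι → AddMonoidAlgebra ℤ G)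
    (hX : ∑ i, X i * dil ℤ (-1) (X i) = ((p * (4 * m) : ℕ) : AddMonoidAlgebra ℤ G))
    (T : AddMonoidAlgebra ℤ G)
    (hT : ∀ i, T * dil ℤ (-1) (X i) = ((p * (4 * m) : ℕ) : AddMonoidAlgebra ℤ G) * X i) :
    red p T = 0 := by
  have hp : p.Prime := Fact.out
  set Y : ι → AddMonoidAlgebra ℤ G := fun i => dil ℤ p (X i) with hY
  set y : ι → AddMonoidAlgebra (ZMod p) G := fun i => red p (Y i) with hy
  have hyp : ∀ i, y i = red p (X i) ^ p := by
    intro i
    rw [hy, pow_char_eq]
    simp only [hY]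
    rw [red_dil]
  -- c
  have hc : ∀ i, y i ^ (p ^ j) = dil (ZMod p) (-1) (y i) := by
    intro i
    rw [pow_char_pow_eq]
    simp only [hy, hY]
    rw [red_dil, dil_dil, dil_dil]
    exact dil_congr _ hG _
  have hd : ∀ i, (dil (ZMod p) (-1) (y i)) ^ (p ^ j) = y i := by
    intro i
    rw [← map_pow, hc, dil_dil]
    simpa using dil_one (ZMod p) (y i)
  set N : ℕ := p ^ j * p ^ j with hN
  have hN2 : 2 ≤ N := by
    have h1 : 2 ≤ p ^ j := le_trans hp.two_le (Nat.le_self_pow (by omega) p)
    rw [hN]; nlinarith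
  have he : ∀ i, y i ^ N = y i := by
    intro i
    rw [hN, pow_mul, hc, hd]
  have hfac : ∀ i, (1 - y i ^ (N - 1)) * y i = 0 := by
    intro i
    have h1 : y i ^ (N - 1) * y i = y i := by
      rw [← pow_succ, Nat.sub_add_cancel (by omega), he]
    rw [sub_mul, h1, one_mul, sub_self]
  set E : AddMonoidAlgebra ℤ G := ∏ i, (1 - Y i ^ (N - 1)) with hE
  have hred : red p E = ∏ i, (1 - y i ^ (N - 1)) := by
    rw [hE, map_prod]
    simp [hy]
  have hEy : ∀ i, red p E * y i = 0 := by
    intro i
    rw [hred, ← Finset.mul_prod_erase _ _ (Finset.mem_univ i), mul_right_comm, hfac, zero_mul]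
  have hEY : ∀ i, ∃ d, E * Y i = (p : AddMonoidAlgebra ℤ G) * d := by
    intro i
    apply exists_mul_of_red_eq_zero
    rw [map_mul]
    exact hEy i
  choose d hd' using hEY
  have hYsum : ∑ i, Y i * dil ℤ (-1) (Y i) = ((p * (4 * m) : ℕ) : AddMonoidAlgebra ℤ G) := by
    have := congrArg (dil ℤ (p : ℤ)) hX
    rw [map_sum, map_natCast] at this
    rw [← this]
    refine Finset.sum_congr rfl fun i _ => ?_
    rw [map_mul]
    simp only [hY]
    rw [dil_dil, dil_dil, mul_comm (-1 : ℤ)]
  have hsum2 : ∑ i, d i * dil ℤ (-1) (Y i) = ((4 * m : ℕ) : AddMonoidAlgebra ℤ G) * E := by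
    apply natCast_mul_cancel (p := p) hp.ne_zero
    rw [Finset.mul_sum]
    calc ∑ i, (p : AddMonoidAlgebra ℤ G) * (d i * dil ℤ (-1) (Y i))
        = ∑ i, E * (Y i * dil ℤ (-1) (Y i)) := by
          refine Finset.sum_congr rfl fun i _ => ?_
          rw [← mul_assoc, ← hd', mul_assoc]
      _ = E * ((p * (4 * m) : ℕ) : AddMonoidAlgebra ℤ G) := by rw [← Finset.mul_sum, hYsum]
      _ = (p : AddMonoidAlgebra ℤ G) * (((4 * m : ℕ) : AddMonoidAlgebra ℤ G) * E) := by
          push_cast; ring
  have hEE : red p E * red p E = 0 := by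
    have h1 := congrArg (fun z => red p E * red p z) hsum2
    simp only [map_sum, map_mul, map_natCast, red_dil] at h1
    have h2 : red p E * ∑ i, red p (d i) * dil (ZMod p) (-1) (y i) = 0 := by
      rw [Finset.mul_sum]
      refine Finset.sum_eq_zero fun i _ => ?_
      rw [← hc]
      have h3 : y i ^ (p ^ j) = y i * y i ^ (p ^ j - 1) := by
        rw [← pow_succ', Nat.sub_add_cancel (Nat.one_le_pow _ _ hp.pos)]
      rw [h3]
      calc red p E * (red p (d i) * (y i * y i ^ (p ^ j - 1)))
          = (red p E * y i) * (red p (d i) * y i ^ (p ^ j - 1)) := by ring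
        _ = 0 := by rw [hEy, zero_mul]
    have h4 : ((4 * m : ℕ) : AddMonoidAlgebra (ZMod p) G) * (red p E * red p E) = 0 := by
      rw [h2] at h1
      rw [h1]
      ring
    exact ((natCast_isUnit p (4 * m) hm).mul_right_eq_zero).1 h4
  have hp0 : ((p : ℕ) : AddMonoidAlgebra (ZMod p) G) = 0 := CharP.cast_eq_zero _ p
  have hTx : ∀ i, red p T * dil (ZMod p) (-1) (red p (X i)) = 0 := by
    intro i
    have h1 := congrArg (red p) (hT i)
    simp only [map_mul, map_natCast, red_dil, Nat.cast_mul, hp0, zero_mul] at h1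
    exact h1
  have hTy : ∀ i, red p T * y i = 0 := by
    intro i
    have h1 : red p T * dil (ZMod p) (-1) (y i) = 0 := by
      rw [hyp, map_pow]
      have h3 : dil (ZMod p) (-1) (red p (X i)) ^ p
          = dil (ZMod p) (-1) (red p (X i)) * dil (ZMod p) (-1) (red p (X i)) ^ (p - 1) := by
        rw [← pow_succ', Nat.sub_add_cancel hp.pos]
      rw [h3, ← mul_assoc, hTx, zero_mul]
    rw [← hd i]
    have h3 : dil (ZMod p) (-1) (y i) ^ (p ^ j)
        = dil (ZMod p) (-1) (y i) * dil (ZMod p) (-1) (y i) ^ (p ^ j - 1) := by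
      rw [← pow_succ', Nat.sub_add_cancel (Nat.one_le_pow _ _ hp.pos)]
    rw [h3, ← mul_assoc, h1, zero_mul]
  have hTE : red p T * red p E = red p T := by
    rw [hred]
    have : ∀ s : Finset ι, red p T * ∏ i ∈ s, (1 - y i ^ (N - 1)) = red p T := by
      intro s
      induction s using Finset.induction_on with
      | empty => simp
      | insert a s ha ih =>
        rw [Finset.prod_insert ha, ← mul_assoc]
        have h1 : red p T * (1 - y a ^ (N - 1)) = red p T := by
          have h3 : y a ^ (N - 1) = y a * y a ^ (N - 1 - 1) := by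
            rw [← pow_succ', Nat.sub_add_cancel (by omega)]
          rw [mul_sub, mul_one, h3, ← mul_assoc, hTy, zero_mul, sub_zero]
        rw [h1, ih]
    exact this _
  calc red p T = (red p T * red p E) * red p E := by rw [hTE, hTE]
    _ = red p T * (red p E * red p E) := by ring
    _ = 0 := by rw [hEE, mul_zero]


/-- The divisibility at a prime `p` modulo which the elements generate the unit ideal. -/
lemma pow_dvd_of_span (p : ℕ) [Fact p.Prime] (e n : ℕ)
    {ι : Type*} [Fintype ι] (X : ι → AddMonoidAlgebra ℤ G)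
    (hspan : Ideal.span (Set.range fun i => red p (X i)) = ⊤)
    (T : AddMonoidAlgebra ℤ G)
    (hT : ∀ i, T * dil ℤ (-1) (X i) = ((p ^ e * n : ℕ) : AddMonoidAlgebra ℤ G) * X i) (g : G) :
    ((p ^ e : ℕ) : ℤ) ∣ T.coeff g := by
  have hp : p.Prime := Fact.out
  have h1 : (1 : AddMonoidAlgebra (ZMod p) G) ∈ Ideal.span (Set.range fun i => red p (X i)) := by
    rw [hspan]; exact Submodule.mem_top
  rw [Ideal.mem_span_range_iff_exists_fun] at h1
  obtain ⟨c, hc⟩ := h1
  have hc' : ∑ i, dil (ZMod p) (-1) (c i) * dil (ZMod p) (-1) (red p (X i)) = 1 := by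
    have := congrArg (dil (ZMod p) (-1)) hc
    simpa only [map_sum, map_mul, map_one] using this
  have key : ∀ a, a ≤ e → ∃ S, T = ((p ^ a : ℕ) : AddMonoidAlgebra ℤ G) * S := by
    intro a
    induction a with
    | zero => intro _; exact ⟨T, by simp⟩
    | succ a ih =>
      intro ha
      obtain ⟨S, hS⟩ := ih (by omega)
      have hpa : p ^ a ≠ 0 := pow_ne_zero _ hp.ne_zero
      have h2 : ∀ i, S * dil ℤ (-1) (X i) = ((p ^ (e - a) * n : ℕ) : AddMonoidAlgebra ℤ G) * X i := by
        intro i
        apply natCast_mul_cancel hpa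
        have h3 : p ^ e = p ^ a * p ^ (e - a) := by rw [← pow_add]; congr 1; omega
        rw [← mul_assoc, ← hS, hT, h3]
        push_cast
        ring
      have hp0 : ((p : ℕ) : AddMonoidAlgebra (ZMod p) G) = 0 := CharP.cast_eq_zero _ p
      have h4 : ∀ i, red p S * dil (ZMod p) (-1) (red p (X i)) = 0 := by
        intro i
        have h5 := congrArg (red p) (h2 i)
        have h6 : e - a = (e - a - 1) + 1 := by omega
        rw [h6, pow_succ] at h5
        simp only [map_mul, map_natCast, red_dil, Nat.cast_mul, hp0, zero_mul, mul_zero] at h5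
        exact h5
      have h7 : red p S = 0 := by
        calc red p S = red p S * 1 := (mul_one _).symm
          _ = ∑ i, dil (ZMod p) (-1) (c i) * (red p S * dil (ZMod p) (-1) (red p (X i))) := by
            rw [← hc', Finset.mul_sum]
            exact Finset.sum_congr rfl fun i _ => by ring
          _ = 0 := by simp [h4]
      obtain ⟨S', hS'⟩ := exists_mul_of_red_eq_zero h7
      refine ⟨S', ?_⟩
      rw [hS, hS', pow_succ]
      push_cast
      ring
  obtain ⟨S, hS⟩ := key e le_rfl
  rw [hS, ← nsmul_eq_mul, AddMonoidAlgebra.coeff_smul_apply, nsmul_eq_mul]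
  exact dvd_mul_right _ _

variable [Fintype G]

/-- the element of the group ring with the given coefficients -/
noncomputable def el (a : G → ℤ) : AddMonoidAlgebra ℤ G :=
  AddMonoidAlgebra.ofCoeff (Finsupp.equivFunOnFinite.symm a)

omit [AddCommGroup G] in
@[simp] lemma coeff_el (a : G → ℤ) (g : G) : (el a).coeff g = a g := rfl

lemma coeff_mul' (x y : AddMonoidAlgebra ℤ G) (g : G) :
    (x * y).coeff g = ∑ h, x.coeff h * y.coeff (g - h) := by
  classical
  rw [AddMonoidAlgebra.coeff_mul, Finsupp.sum_fintype _ _ (by simp)]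
  refine Finset.sum_congr rfl fun h _ => ?_
  rw [Finsupp.sum_fintype _ _ (by simp), Finset.sum_eq_single (g - h)]
  · simp
  · intro b _ hb
    rw [if_neg]
    intro h1
    exact hb (by rw [← h1]; abel)
  · simp

omit [Fintype G] in
lemma coeff_star (x : AddMonoidAlgebra ℤ G) (g : G) : (dil ℤ (-1) x).coeff g = x.coeff (-g) := by
  classical
  have : dil ℤ (-1) x = AddMonoidAlgebra.mapDomain (fun h : G => -h) x := by
    simp only [dil, AddMonoidAlgebra.mapDomainRingHom_apply]
    congr 1
    ext h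
    simp
  rw [this]
  have h2 : (AddMonoidAlgebra.mapDomain (fun h : G => -h) x).coeff g
      = Finsupp.mapDomain (fun h : G => -h) x.coeff (-(-g)) := by
    rw [neg_neg]; rfl
  rw [h2]
  exact Finsupp.mapDomain_apply neg_injective x.coeff (-g)

omit [Fintype G] in
lemma coeff_natCast (n : ℕ) (g : G) [DecidableEq G] :
    ((n : ℕ) : AddMonoidAlgebra ℤ G).coeff g = if g = 0 then (n : ℤ) else 0 := by
  rw [AddMonoidAlgebra.natCast_def]
  simp [Finsupp.single_apply, eq_comm]

lemma sum_coeff_mul (x y : AddMonoidAlgebra ℤ G) :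
    ∑ g, (x * y).coeff g = (∑ g, x.coeff g) * ∑ g, y.coeff g := by
  simp only [coeff_mul']
  rw [Finset.sum_comm, Finset.sum_mul]
  refine Finset.sum_congr rfl fun h _ => ?_
  rw [← Finset.mul_sum]
  congr 1
  exact Fintype.sum_equiv (Equiv.subRight h) _ _ (fun _ => rfl)


omit [AddCommGroup G] in
lemma el_eq_sum (a : G → ℤ) : el a = ∑ h, AddMonoidAlgebra.single h (a h) := by
  classical
  apply AddMonoidAlgebra.ext
  ext g
  rw [AddMonoidAlgebra.coeff_sum, Finsupp.finsetSum_apply]
  simp [Finsupp.single_apply]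

/-- The group-ring elements with coefficient functions `a i` have no common zero in
characteristic `p`: no homomorphism from `G` to the multiplicative monoid of a field of
characteristic `p` annihilates them all. -/
def NoCommonZero (p : ℕ) {ι : Type*} (a : ι → G → ℤ) : Prop :=
  ∀ (K : Type) [Field K] [CharP K p] (χ : Multiplicative G →* K),
    ∃ i, ∑ h : G, (a i h : K) * χ (Multiplicative.ofAdd h) ≠ 0

end GroupRing

lemma span_of_noCommonZero {G : Type} [AddCommGroup G] [Fintype G] (p : ℕ) [Fact p.Prime]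
    {ι : Type*} (a : ι → G → ℤ) (h : NoCommonZero p a) :
    Ideal.span (Set.range fun i => red p (el (a i))) = ⊤ := by
  by_contra hne
  obtain ⟨M, hM, hle⟩ := Ideal.exists_le_maximal _ hne
  let _ : Field (AddMonoidAlgebra (ZMod p) G ⧸ M) := Ideal.Quotient.field M
  have _ : CharP (AddMonoidAlgebra (ZMod p) G ⧸ M) p :=
    charP_of_injective_ringHom
      (f := (Ideal.Quotient.mk M).comp (algebraMap (ZMod p) (AddMonoidAlgebra (ZMod p) G)))
      (RingHom.injective _) p
  let χ : Multiplicative G →* (AddMonoidAlgebra (ZMod p) G ⧸ M) :=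
    ((Ideal.Quotient.mk M : AddMonoidAlgebra (ZMod p) G →+* _) : _ →* _).comp
      (AddMonoidAlgebra.of (ZMod p) G)
  obtain ⟨i, hi⟩ := h _ χ
  apply hi
  have h1 : Ideal.Quotient.mk M (red p (el (a i))) = 0 := by
    rw [Ideal.Quotient.eq_zero_iff_mem]
    exact hle (Ideal.subset_span ⟨i, rfl⟩)
  rw [← h1, el_eq_sum, map_sum, map_sum]
  refine Finset.sum_congr rfl fun g _ => ?_
  have h2 : red p (AddMonoidAlgebra.single g (a i g))
      = ((a i g : ℤ) : AddMonoidAlgebra (ZMod p) G) * AddMonoidAlgebra.single g 1 := by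
    rw [AddMonoidAlgebra.intCast_def, AddMonoidAlgebra.single_mul_single]
    simp [red]
  rw [h2, map_mul, map_intCast]
  rfl

section Final

variable {G : Type*} [AddCommGroup G] [Fintype G]

/-- Final step: a quadruple of `±1` functions on a finite abelian group, whose sum of squares is
divisible by every prime factor of the (odd, squarefree) order, is symmetric about one point. -/
lemma exists_center [DecidableEq G] (w : ℕ) (hw : Fintype.card G = w) (hodd : Odd w)
    (a : Fin 4 → G → ℤ) (ha : ∀ i g, a i g = 1 ∨ a i g = -1)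
    (hcomm : ∀ i j, el (a i) * dil ℤ (-1) (el (a j)) = el (a j) * dil ℤ (-1) (el (a i)))
    (hsum : ∑ i, el (a i) * dil ℤ (-1) (el (a i)) = ((4 * w : ℕ) : AddMonoidAlgebra ℤ G))
    (hdvd : ∀ g, (w : ℤ) ∣ (∑ i, el (a i) * el (a i)).coeff g) :
    ∃ g, ∀ i h, a i (g - h) = a i h := by
  classical
  set T : AddMonoidAlgebra ℤ G := ∑ i, el (a i) * el (a i) with hT
  have hw0 : 0 < w := hodd.pos
  have hTcoeff : ∀ g, T.coeff g = ∑ i, ∑ h, a i h * a i (g - h) := by
    intro g
    rw [hT, AddMonoidAlgebra.coeff_sum, Finsupp.finsetSum_apply]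
    refine Finset.sum_congr rfl fun i _ => ?_
    rw [coeff_mul']
    simp
  -- divisibility by 4
  have h4 : ∀ g, (4 : ℤ) ∣ T.coeff g := by
    intro g
    rw [hTcoeff]
    have he : ∀ i, ∃ e : G → ℤ, ∀ h, a i h = 1 - 2 * e h := by
      intro i
      refine ⟨fun h => (1 - a i h) / 2, fun h => ?_⟩
      rcases ha i h with h1 | h1 <;> simp only [h1] <;> norm_num
    choose e he using he
    have h5 : ∀ i, ∑ h, a i h * a i (g - h)
        = (w : ℤ) - 4 * (∑ h, e i h - ∑ h, e i h * e i (g - h)) := by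
      intro i
      have h6 : ∑ h, e i (g - h) = ∑ h, e i h :=
        Fintype.sum_equiv (Equiv.subLeft g) _ _ (fun _ => rfl)
      have h7 : ∀ h, a i h * a i (g - h)
          = 1 - 2 * e i h - 2 * e i (g - h) + 4 * (e i h * e i (g - h)) := by
        intro h; rw [he i h, he i (g - h)]; ring
      simp only [h7, Finset.sum_add_distrib, Finset.sum_sub_distrib, ← Finset.mul_sum, h6]
      rw [Finset.sum_const, Finset.card_univ, hw]
      ring_nf
    simp only [h5]
    refine ⟨(w : ℤ) - ∑ i, (∑ h, e i h - ∑ h, e i h * e i (g - h)), ?_⟩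
    rw [Finset.sum_sub_distrib, ← Finset.mul_sum]
    simp
    ring
  have h4w : ∀ g, ((4 * w : ℕ) : ℤ) ∣ T.coeff g := by
    intro g
    push_cast
    refine IsCoprime.mul_dvd ?_ (h4 g) (hdvd g)
    have : Nat.Coprime 4 w := by
      have h8 := hodd.coprime_two_left
      exact Nat.Coprime.pow_left 2 h8
    exact_mod_cast Nat.isCoprime_iff_coprime.2 this
  choose v hv using h4w
  have hTX : ∀ i, T * dil ℤ (-1) (el (a i)) = ((4 * w : ℕ) : AddMonoidAlgebra ℤ G) * el (a i) := by
    intro i
    rw [hT, Finset.sum_mul, ← hsum, Finset.sum_mul]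
    refine Finset.sum_congr rfl fun k _ => ?_
    rw [mul_assoc, hcomm k i]
    ring
  have hTT : T * dil ℤ (-1) T = ((4 * w * (4 * w) : ℕ) : AddMonoidAlgebra ℤ G) := by
    have h1 : T * dil ℤ (-1) T = ∑ i, T * dil ℤ (-1) (el (a i)) * dil ℤ (-1) (el (a i)) := by
      rw [hT, map_sum, Finset.mul_sum]
      refine Finset.sum_congr rfl fun k _ => ?_
      rw [map_mul, mul_assoc]
    rw [h1]
    simp only [hTX]
    simp only [mul_assoc]
    rw [← Finset.mul_sum, hsum]
    push_cast
    ring
  have hsq : ∑ g, T.coeff g * T.coeff g = ((4 * w * (4 * w) : ℕ) : ℤ) := by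
    have h1 : (T * dil ℤ (-1) T).coeff 0 = ((4 * w * (4 * w) : ℕ) : AddMonoidAlgebra ℤ G).coeff 0 := by
      rw [hTT]
    rw [coeff_mul', coeff_natCast, if_pos rfl] at h1
    rw [← h1]
    refine Finset.sum_congr rfl fun g _ => ?_
    rw [coeff_star]
    simp
  have hTs : ∑ g, T.coeff g = ((4 * w : ℕ) : ℤ) := by
    have h1 : ∑ g, T.coeff g = ∑ i, (∑ g, a i g) * ∑ g, a i g := by
      have : ∀ i, ∑ g, (el (a i) * el (a i)).coeff g = (∑ g, a i g) * ∑ g, a i g := by
        intro i; rw [sum_coeff_mul]; simp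
      simp only [← this]
      rw [Finset.sum_comm]
      refine Finset.sum_congr rfl fun g _ => ?_
      rw [hT, AddMonoidAlgebra.coeff_sum, Finsupp.finsetSum_apply]
    have h2 : ∑ g, (∑ i, el (a i) * dil ℤ (-1) (el (a i))).coeff g = ∑ i, (∑ g, a i g) * ∑ g, a i g := by
      have : ∀ i, ∑ g, (el (a i) * dil ℤ (-1) (el (a i))).coeff g
          = (∑ g, a i g) * ∑ g, a i g := by
        intro i
        rw [sum_coeff_mul]
        simp only [coeff_star, coeff_el]
        congr 1
        exact Fintype.sum_equiv (Equiv.neg G) _ _ (fun _ => rfl)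
      simp only [← this]
      rw [Finset.sum_comm]
      refine Finset.sum_congr rfl fun g _ => ?_
      rw [AddMonoidAlgebra.coeff_sum, Finsupp.finsetSum_apply]
    rw [h1, ← h2, hsum]
    simp only [coeff_natCast]
    simp
  have hW : ((4 * w : ℕ) : ℤ) ≠ 0 := by
    have : 0 < 4 * w := by omega
    exact_mod_cast this.ne'
  have hv1 : ∑ g, v g = 1 := by
    apply mul_left_cancel₀ hW
    rw [Finset.mul_sum, mul_one]
    refine Eq.trans (Finset.sum_congr rfl fun g _ => (hv g).symm) hTs
  have hv2 : ∑ g, v g * v g = 1 := by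
    apply mul_left_cancel₀ (mul_ne_zero hW hW)
    rw [Finset.mul_sum, mul_one]
    have h1 : ∑ g, T.coeff g * T.coeff g = ((4 * w : ℕ) : ℤ) * ((4 * w : ℕ) : ℤ) := by
      rw [hsq]; push_cast; ring
    refine Eq.trans (Finset.sum_congr rfl fun g _ => ?_) h1
    rw [hv g]; ring
  have hex : ∃ g, v g = 1 := by
    by_contra hne
    push Not at hne
    have h1 : ∀ g, v g = 0 := by
      have h2 : ∑ g, (v g * v g - v g) = 0 := by
        rw [Finset.sum_sub_distrib, hv1, hv2]; ring
      have h3 : ∀ g ∈ Finset.univ, 0 ≤ v g * v g - v g := by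
        intro g _
        rcases le_or_gt (v g) 0 with h | h <;> nlinarith
      intro g
      have h4 := (Finset.sum_eq_zero_iff_of_nonneg h3).1 h2 g (Finset.mem_univ g)
      have h5 : v g * (v g - 1) = 0 := by linarith
      rcases mul_eq_zero.1 h5 with h6 | h6
      · exact h6
      · exact absurd (by linarith) (hne g)
    simp [h1] at hv1
  obtain ⟨g, hg⟩ := hex
  refine ⟨g, ?_⟩
  have hg2 : ∑ i, ∑ h, a i h * a i (g - h) = ((4 * w : ℕ) : ℤ) := by
    rw [← hTcoeff, hv g, hg, mul_one]
  have hle : ∀ i h, 0 ≤ 1 - a i h * a i (g - h) := by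
    intro i h
    rcases ha i h with h1 | h1 <;> rcases ha i (g - h) with h2 | h2 <;> rw [h1, h2] <;> norm_num
  have hz : ∑ i : Fin 4, ∑ h : G, (1 - a i h * a i (g - h)) = 0 := by
    simp only [Finset.sum_sub_distrib, hg2]
    simp [hw]
  intro i h
  have h1 := (Finset.sum_eq_zero_iff_of_nonneg
    (fun i _ => Finset.sum_nonneg fun h _ => hle i h)).1 hz i (Finset.mem_univ i)
  have h2 := (Finset.sum_eq_zero_iff_of_nonneg (fun h _ => hle i h)).1 h1 h (Finset.mem_univ h)
  have h5 : a i h * a i (g - h) = 1 := by linarith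
  have h6 : a i h * a i h = 1 := by rcases ha i h with h3 | h3 <;> rw [h3] <;> norm_num
  calc a i (g - h) = (a i h * a i h) * a i (g - h) := by rw [h6, one_mul]
    _ = a i h * (a i h * a i (g - h)) := by ring
    _ = a i h := by rw [h5, mul_one]

end Final

lemma main_functions {G : Type} [AddCommGroup G] [Fintype G] [DecidableEq G] (w : ℕ)
    (hw : Fintype.card G = w) (hodd : Odd w)
    (a : Fin 4 → G → ℤ) (ha : ∀ i g, a i g = 1 ∨ a i g = -1)
    (hcomm : ∀ i j, el (a i) * dil ℤ (-1) (el (a j)) = el (a j) * dil ℤ (-1) (el (a i)))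
    (hsum : ∑ i, el (a i) * dil ℤ (-1) (el (a i)) = ((4 * w : ℕ) : AddMonoidAlgebra ℤ G))
    (hp : ∀ p : ℕ, p.Prime → p ∣ w → (¬ p ^ 2 ∣ w ∧ ∃ j, w / p ∣ p ^ j + 1) ∨ NoCommonZero p a) :
    ∃ g, ∀ i h, a i (g - h) = a i h := by
  apply exists_center w hw hodd a ha hcomm hsum
  set T : AddMonoidAlgebra ℤ G := ∑ i, el (a i) * el (a i) with hT
  have hTX : ∀ i, T * dil ℤ (-1) (el (a i)) = ((4 * w : ℕ) : AddMonoidAlgebra ℤ G) * el (a i) := by
    intro i
    rw [hT, Finset.sum_mul, ← hsum, Finset.sum_mul]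
    refine Finset.sum_congr rfl fun k _ => ?_
    rw [mul_assoc, hcomm k i]
    ring
  have hwpos : 0 < w := hodd.pos
  intro g
  rw [Int.natCast_dvd]
  rw [Nat.dvd_iff_prime_pow_dvd_dvd]
  intro p k hpp hk
  rcases Nat.eq_zero_or_pos k with hk0 | hkpos
  · subst hk0; simp
  have _ : Fact p.Prime := ⟨hpp⟩
  have hpw : p ∣ w := dvd_trans (dvd_pow_self p (by omega)) hk
  have hp2 : p ≠ 2 := by
    rintro rfl
    exact (Nat.not_even_iff_odd.2 hodd) (even_iff_two_dvd.2 hpw)
  have hp4 : Nat.Coprime p 4 := by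
    have h1 : Nat.Coprime p 2 := (Nat.coprime_primes hpp Nat.prime_two).2 hp2
    exact Nat.Coprime.pow_right 2 h1
  rcases hp p hpp hpw with ⟨hp22, j, hj⟩ | hN
  · have hk1 : k = 1 := by
      by_contra hk1
      exact hp22 (dvd_trans (pow_dvd_pow p (by omega)) hk)
    subst hk1
    obtain ⟨m, hm⟩ := hpw
    have hpm : ¬ p ∣ m := by
      rintro ⟨t, ht⟩
      exact hp22 ⟨t, by rw [hm, ht]; ring⟩
    have hwp : w / p = m := by rw [hm]; exact Nat.mul_div_cancel_left m hpp.pos
    rw [hwp] at hj
    have hj' : ∃ j, 1 ≤ j ∧ m ∣ p ^ j + 1 := by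
      rcases Nat.eq_zero_or_pos j with hj0 | hj0
      · subst hj0
        have hm1 : m = 1 := by
          have h2 : m ∣ 2 := by simpa using hj
          have h3 : Odd m := by
            rw [hm] at hodd
            exact (Nat.odd_mul.1 hodd).2
          rcases (Nat.dvd_prime Nat.prime_two).1 h2 with h4 | h4
          · exact h4
          · rw [h4] at h3; exact absurd h3 (by decide)
        exact ⟨1, le_rfl, by rw [hm1]; exact one_dvd _⟩
      · exact ⟨j, hj0, hj⟩
    obtain ⟨j, hj1, hjm⟩ := hj'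
    have h4m : ¬ p ∣ 4 * m := by
      intro h5
      exact hpm (hp4.dvd_of_dvd_mul_left h5)
    have h4w : 4 * w = p * (4 * m) := by rw [hm]; ring
    have hred : red p T = 0 := by
      apply red_eq_zero_of_selfconj p m j h4m hj1 _ (fun i => el (a i)) (by rw [hsum, h4w]) T
        (by intro i; rw [hTX, h4w])
      intro g
      have h6 : (w : ℤ) ∣ (p : ℤ) ^ j * p + p := by
        obtain ⟨t, ht⟩ := hjm
        refine ⟨t, ?_⟩
        have : ((p ^ j + 1 : ℕ) : ℤ) = ((m * t : ℕ) : ℤ) := by rw [ht]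
        push_cast at this
        rw [hm]
        push_cast
        linear_combination (p : ℤ) * this
      have h7 : ((p : ℤ) ^ j * p + p) • g = 0 := by
        obtain ⟨t, ht⟩ := h6
        rw [ht, mul_comm, mul_smul, natCast_zsmul, ← hw, card_nsmul_eq_zero, smul_zero]
      rw [add_smul] at h7
      rw [neg_one_mul, neg_smul]
      exact eq_neg_of_add_eq_zero_left h7
    have h8 := dvd_of_red_eq_zero hred g
    rw [pow_one]
    exact Int.natCast_dvd.1 h8
  · obtain ⟨n, hn⟩ := hk
    have hspan := span_of_noCommonZero p a hN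
    have h8 := pow_dvd_of_span p k (4 * n) (fun i => el (a i)) hspan T (by
      intro i
      rw [hTX, hn]
      congr 2
      ring) g
    exact Int.natCast_dvd.1 h8

/-- A Williamson quadruple of order `|G|`: four `±1` matrices `M 0, …, M 3` (the `A, B, C, D` of the
problem), indexed by a finite set `G`, with `X Yᵀ = Y Xᵀ` for any two of them and
`A Aᵀ + B Bᵀ + C Cᵀ + D Dᵀ = 4 |G| I`. -/
def IsWilliamson {G : Type} [Fintype G] [DecidableEq G] (M : Fin 4 → Matrix G G ℤ) : Prop :=
  (∀ i x y, M i x y = 1 ∨ M i x y = -1) ∧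
  (∀ i j, M i * (M j).transpose = M j * (M i).transpose) ∧
  M 0 * (M 0).transpose + M 1 * (M 1).transpose + M 2 * (M 2).transpose + M 3 * (M 3).transpose
    = ((4 * Fintype.card G : ℕ) : ℤ) • (1 : Matrix G G ℤ)

/-- The matrix is developed over the abelian group `G` (circulant if `G = ZMod w`). -/
def IsDeveloped {G : Type} [AddCommGroup G] (M : Matrix G G ℤ) : Prop :=
  ∀ x y z, M (x + z) (y + z) = M x y

/-- The translate of a matrix: `(shift s M) x y = M x (y + s)`. -/
def shift {G : Type} [AddCommGroup G] (s : G) (M : Matrix G G ℤ) : Matrix G G ℤ :=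
  fun x y => M x (y + s)

/-- The first rows of the matrices `M i` have no common zero in characteristic `p`. -/
def RowsNoCommonZero {G : Type} [AddCommGroup G] [Fintype G] (p : ℕ)
    (M : Fin 4 → Matrix G G ℤ) : Prop :=
  ∀ (K : Type) [Field K] [CharP K p] (χ : Multiplicative G →* K),
    ∃ i, ∑ h : G, (M i 0 h : K) * χ (Multiplicative.ofAdd h) ≠ 0

lemma developed_apply {G : Type} [AddCommGroup G] {M : Matrix G G ℤ} (h : IsDeveloped M) (x y : G) :
    M x y = M 0 (y - x) := by
  have := h 0 (y - x) x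
  rw [zero_add, sub_add_cancel] at this
  exact this

lemma coeff_el_star {G : Type} [AddCommGroup G] [Fintype G] [DecidableEq G] {M N : Matrix G G ℤ}
    (hN : IsDeveloped N) (g : G) :
    (el (fun h => M 0 h) * dil ℤ (-1) (el (fun h => N 0 h))).coeff g
      = (M * N.transpose) 0 g := by
  rw [coeff_mul', Matrix.mul_apply]
  refine Finset.sum_congr rfl fun h _ => ?_
  rw [coeff_star, coeff_el, coeff_el, Matrix.transpose_apply, developed_apply hN g h]
  congr 2
  abel

theorem part_one (G : Type) [AddCommGroup G] [Fintype G] [DecidableEq G]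
    (hodd : Odd (Fintype.card G)) (M : Fin 4 → Matrix G G ℤ) (hM : IsWilliamson M)
    (hinv : ∀ i, IsDeveloped (M i))
    (hp : ∀ p : ℕ, p.Prime → p ∣ Fintype.card G →
      (¬ p ^ 2 ∣ Fintype.card G ∧ ∃ j, Fintype.card G / p ∣ p ^ j + 1) ∨ RowsNoCommonZero p M) :
    ∃ s : G, (∀ i, IsDeveloped (shift s (M i))) ∧ IsWilliamson (fun i => shift s (M i)) ∧
      ∀ i, (shift s (M i)).IsSymm := by
  obtain ⟨h1, h2, h3⟩ := hM
  obtain ⟨g, hg⟩ := main_functions (Fintype.card G) rfl hodd (fun i h => M i 0 h)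
    (fun i h => h1 i 0 h)
    (by
      intro i j
      apply AddMonoidAlgebra.ext
      ext g
      rw [coeff_el_star (hinv j), coeff_el_star (hinv i), h2])
    (by
      apply AddMonoidAlgebra.ext
      ext g
      rw [AddMonoidAlgebra.coeff_sum, Finsupp.finsetSum_apply]
      have h4 : ∀ i, (el (fun h => M i 0 h) * dil ℤ (-1) (el (fun h => M i 0 h))).coeff g
          = (M i * (M i).transpose) 0 g := fun i => coeff_el_star (hinv i) g
      simp only [h4]
      rw [Fin.sum_univ_four]
      have h5 := congrFun (congrFun h3 0) g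
      simp only [Matrix.add_apply, Matrix.smul_apply, Matrix.one_apply] at h5
      rw [h5, coeff_natCast]
      by_cases h0 : g = 0
      · subst h0; simp
      · rw [if_neg h0, if_neg (Ne.symm h0)]; simp)
    hp
  -- the midpoint
  obtain ⟨t, ht⟩ := hodd
  set s : G := (t + 1) • g with hs
  have hss : s + s = g := by
    have h5 : s + s = (Fintype.card G) • g + g := by
      rw [hs, ← add_smul, ht]
      rw [show t + 1 + (t + 1) = (2 * t + 1) + 1 by ring, add_smul, one_smul]
    rw [h5, card_nsmul_eq_zero, zero_add]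
  refine ⟨s, ?_, ⟨?_, ?_, ?_⟩, ?_⟩
  · intro i x y z
    simp only [shift]
    rw [show y + z + s = (y + s) + z by abel]
    exact hinv i x (y + s) z
  · intro i x y
    exact h1 i x (y + s)
  · intro i j
    have h6 : ∀ i j, shift s (M i) * (shift s (M j)).transpose = M i * (M j).transpose := by
      intro i j
      ext x y
      rw [Matrix.mul_apply, Matrix.mul_apply]
      exact Fintype.sum_equiv (Equiv.addRight s) _ _ (fun _ => rfl)
    simp only [h6]
    exact h2 i j
  · have h6 : ∀ i, shift s (M i) * (shift s (M i)).transpose = M i * (M i).transpose := by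
      intro i
      ext x y
      rw [Matrix.mul_apply, Matrix.mul_apply]
      exact Fintype.sum_equiv (Equiv.addRight s) _ _ (fun _ => rfl)
    simp only [h6]
    exact h3
  · intro i
    ext x y
    simp only [Matrix.transpose_apply, shift]
    rw [developed_apply (hinv i) y (x + s), developed_apply (hinv i) x (y + s), ← hg i (y + s - x)]
    congr 1
    rw [← hss]
    abel

/-- The first rows of a circulant Williamson quadruple of order `9`. -/
def rows9 : Fin 4 → ZMod 9 → ℤ :=
  ![fun h => if h = 2 ∨ h = 5 ∨ h = 8 then -1 else 1,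
    fun h => if h = 0 ∨ h = 1 ∨ h = 8 then -1 else 1,
    fun h => if h = 0 ∨ h = 4 ∨ h = 5 then -1 else 1,
    fun h => if h = 0 ∨ h = 2 ∨ h = 7 then -1 else 1]

/-- The circulant matrices with first rows `rows9 i`. -/
def mat9 (i : Fin 4) : Matrix (ZMod 9) (ZMod 9) ℤ := fun x y => rows9 i (y - x)

lemma corr9 (i j : Fin 4) (x y : ZMod 9) :
    (mat9 i * (mat9 j).transpose) x y = ∑ k, rows9 i k * rows9 j (k - (y - x)) := by
  rw [Matrix.mul_apply]
  refine Fintype.sum_equiv (Equiv.subRight x) _ _ (fun k => ?_)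
  simp only [Matrix.transpose_apply, Equiv.subRight_apply, mat9]
  congr 2
  abel

theorem part_two : ∃ M : Fin 4 → Matrix (ZMod 9) (ZMod 9) ℤ,
    IsWilliamson M ∧ (∀ i, IsDeveloped (M i)) ∧ ¬ ∃ s : ZMod 9, ∀ i, (shift s (M i)).IsSymm := by
  refine ⟨mat9, ⟨?_, ?_, ?_⟩, ?_, ?_⟩
  · intro i x y
    have h1 : ∀ (i : Fin 4) (h : ZMod 9), rows9 i h = 1 ∨ rows9 i h = -1 := by decide
    exact h1 i (y - x)
  · intro i j
    ext x y
    rw [corr9, corr9]
    have h1 : ∀ (i j : Fin 4) (d : ZMod 9), ∑ k, rows9 i k * rows9 j (k - d)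
        = ∑ k, rows9 j k * rows9 i (k - d) := by decide +kernel
    exact h1 i j (y - x)
  · ext x y
    simp only [Matrix.add_apply, Matrix.smul_apply]
    rw [corr9, corr9, corr9, corr9]
    have h1 : ∀ d : ZMod 9, ∑ k, rows9 0 k * rows9 0 (k - d) + ∑ k, rows9 1 k * rows9 1 (k - d)
        + ∑ k, rows9 2 k * rows9 2 (k - d) + ∑ k, rows9 3 k * rows9 3 (k - d)
        = if d = 0 then 36 else 0 := by decide +kernel
    rw [h1, Matrix.one_apply]
    by_cases hxy : x = y
    · subst hxy; simp
    · rw [if_neg hxy, if_neg (fun h => hxy (sub_eq_zero.1 h).symm)]; simp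
  · intro i x y z
    simp only [mat9, add_sub_add_right_eq_sub]
  · intro h
    have h1 : ∀ s : ZMod 9, ∃ i, ∃ x y : ZMod 9, rows9 i (x + s - y) ≠ rows9 i (y + s - x) := by
      decide
    obtain ⟨s, hs⟩ := h
    obtain ⟨i, x, y, hxy⟩ := h1 s
    exact hxy (congrFun (congrFun (hs i) x) y)

/-- **Main result.**  (1) Let `G` be a finite abelian group of odd order `w` and `M 0, …, M 3` a
Williamson quadruple of `G`-developed matrices such that every prime `p ∣ w` satisfies: `p² ∤ w` and
`w / p ∣ p ^ j + 1` for some `j`; or the first rows have no common zero in characteristic `p`.  Then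
a common translate of the four matrices is symmetric (and again a Williamson quadruple of
`G`-developed matrices).  (2) There is a circulant Williamson quadruple of order `9` no common
translate of which is symmetric. -/
theorem result :
    (∀ (G : Type) [AddCommGroup G] [Fintype G] [DecidableEq G] (M : Fin 4 → Matrix G G ℤ),
      Odd (Fintype.card G) → IsWilliamson M → (∀ i, IsDeveloped (M i)) →
      (∀ p : ℕ, p.Prime → p ∣ Fintype.card G →
        (¬ p ^ 2 ∣ Fintype.card G ∧ ∃ j, Fintype.card G / p ∣ p ^ j + 1) ∨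
          RowsNoCommonZero p M) →
      ∃ s : G, (∀ i, IsDeveloped (shift s (M i))) ∧ IsWilliamson (fun i => shift s (M i)) ∧
        ∀ i, (shift s (M i)).IsSymm) ∧
    ∃ M : Fin 4 → Matrix (ZMod 9) (ZMod 9) ℤ,
      IsWilliamson M ∧ (∀ i, IsDeveloped (M i)) ∧
        ¬ ∃ s : ZMod 9, ∀ i, (shift s (M i)).IsSymm :=
  ⟨fun G _ _ _ M hodd hM hinv hp => part_one G hodd M hM hinv hp, part_two⟩

end Pool.Agent.Results.MP_f288ff_co.CirculantSymmetric
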